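import Mathlib

/-! # Symmetric convex sets with interior points contain a neighbourhood of the origin -/

set_option autoImplicit false

namespace Pool.Agent.T9h58.ZN

theorem zero_mem_interior {n : ℕ} {K : Set (EuclideanSpace ℝ (Fin n))} (hc : Convex ℝ K)
    (hs : ∀ x ∈ K, -x ∈ K) (hi : (interior K).Nonempty) :
    (0 : EuclideanSpace ℝ (Fin n)) ∈ interior K := by
  obtain ⟨x, hx⟩ := hi
  have hK : (fun y : EuclideanSpace ℝ (Fin n) => -y) ⁻¹' K = K := by
    ext y
    exact ⟨fun hy => by simpa using hs _ hy, fun hy => hs _ hy⟩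
  have h1 : (fun y : EuclideanSpace ℝ (Fin n) => -y) ⁻¹' interior K =
      interior ((fun y : EuclideanSpace ℝ (Fin n) => -y) ⁻¹' K) :=
    (Homeomorph.neg (EuclideanSpace ℝ (Fin n))).preimage_interior K
  rw [hK] at h1
  have hx' : -x ∈ interior K := by
    rw [← h1]
    simpa using hx
  have h2 := hc.interior hx hx' (show (0 : ℝ) ≤ 1 / 2 by norm_num)
    (show (0 : ℝ) ≤ 1 / 2 by norm_num) (by norm_num)
  have h3 : (1 / 2 : ℝ) • x + (1 / 2 : ℝ) • -x = 0 := by rw [smul_neg, add_neg_cancel]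
  rwa [h3] at h2

end Pool.Agent.T9h58.ZN
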