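import Pool.Agent.T9h58.ZN.Core
import Pool.Agent.T9h56.ZN.OT
import Pool.Agent.T9h81.ZN.Perm1
import Pool.Agent.H354R3.ZN.ACT
import Pool.Agent.H354R3.ZN.ACTZ
import Pool.Agent.H354R3.ZN.ALEX
import Pool.Agent.H354R3.ZN.BCR
import Pool.Agent.H354R3.ZN.BMR
import Pool.Agent.H354R3.ZN.BMZ
import Pool.Agent.H354R3.ZN.CHAIN
import Pool.Agent.H354R3.ZN.CLB
import Pool.Agent.H354R3.ZN.COF
import Pool.Agent.H354R3.ZN.DENSE
import Pool.Agent.H354R3.ZN.DOT
import Pool.Agent.H354R3.ZN.FIBM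
import Pool.Agent.H354R3.ZN.FIBR
import Pool.Agent.H354R3.ZN.FIBS
import Pool.Agent.H354R3.ZN.FIBV
import Pool.Agent.H354R3.ZN.FLEM
import Pool.Agent.H354R3.ZN.GEN
import Pool.Agent.H354R3.ZN.GRAD
import Pool.Agent.H354R3.ZN.GRE
import Pool.Agent.H354R3.ZN.GRH
import Pool.Agent.H354R3.ZN.HDZ
import Pool.Agent.H354R3.ZN.HH
import Pool.Agent.H354R3.ZN.HOL
import Pool.Agent.H354R3.ZN.KSUM
import Pool.Agent.H354R3.ZN.LAY
import Pool.Agent.H354R3.ZN.LB
import Pool.Agent.H354R3.ZN.LB0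
import Pool.Agent.H354R3.ZN.LCE
import Pool.Agent.H354R3.ZN.LCI
import Pool.Agent.H354R3.ZN.LCM
import Pool.Agent.H354R3.ZN.LCS
import Pool.Agent.H354R3.ZN.LEV
import Pool.Agent.H354R3.ZN.LINE
import Pool.Agent.H354R3.ZN.LMC
import Pool.Agent.H354R3.ZN.LMR
import Pool.Agent.H354R3.ZN.LMZ
import Pool.Agent.H354R3.ZN.LOG
import Pool.Agent.H354R3.ZN.LPR
import Pool.Agent.H354R3.ZN.LPZ
import Pool.Agent.H354R3.ZN.MES
import Pool.Agent.H354R3.ZN.MULT
import Pool.Agent.H354R3.ZN.PARA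
import Pool.Agent.H354R3.ZN.PERM0
import Pool.Agent.H354R3.ZN.PLZ
import Pool.Agent.H354R3.ZN.POL
import Pool.Agent.H354R3.ZN.POS
import Pool.Agent.H354R3.ZN.PTB
import Pool.Agent.H354R3.ZN.PTL
import Pool.Agent.H354R3.ZN.SAMEV
import Pool.Agent.H354R3.ZN.SAND
import Pool.Agent.H354R3.ZN.SITE
import Pool.Agent.H354R3.ZN.STEP
import Pool.Agent.H354R3.ZN.SWAP
import Pool.Agent.H354R3.ZN.TILE
import Pool.Agent.H354R3.ZN.UNI
import Pool.Agent.H354R3.ZN.UNR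
import Pool.Agent.H354R3.ZN.VEXP
import Pool.Agent.H354R3.ZN.WSB
import Pool.Agent.H354R3.ZN.ZM
import Pool.Agent.H354R3.ZN.ZMZ
import Pool.Agent.H354R3.ZN.ZST

/-!
# Assembly of project ZN (helper354)
-/

set_option autoImplicit false

namespace Pool.Agent.T9h58.ZN

open H354ZN

theorem ot : S_OT := fun _ κ _ _ L ξ ν h1 h2 h3 => Pool.Agent.T9h56.ZN.power κ L ξ ν h1 h2 h3
theorem perm0 : S_PERM0 := t_PERM0 t_DOT
theorem perm1 : S_PERM1 := Pool.Agent.T9h81.ZN.t_PERM1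
theorem cof : S_COF := t_COF perm0 perm1
theorem line : S_LINE := t_LINE t_DOT perm0
theorem s_core : S_CORE := core ot perm1 cof t_SITE line t_GEN t_SWAP t_CHAIN t_PARA
theorem ksum : S_KSUM := t_KSUM perm0 perm1 t_SWAP
theorem tile : S_TILE := t_TILE t_GEN t_SITE
theorem slog : S_LOG := t_LOG s_core ksum perm0 perm1 t_SWAP
theorem act : S_ACT := t_ACT perm0 line
theorem mult : S_MULT := t_MULT slog tile
theorem zm : S_ZM := t_ZM mult act t_POS
theorem hh' : S_HH := t_HH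
theorem wsb : S_WSB := t_WSB
theorem zst : S_ZST := t_ZST zm t_SAND hh' wsb
theorem grad : S_GRAD := t_GRAD hh'
theorem grh : S_GRH := t_GRH
theorem vexp : S_VEXP := t_VEXP hh'
theorem pol : S_POL := t_POL hh' vexp
theorem ptb : S_PTB := t_PTB hh' wsb
theorem ptl : S_PTL := t_PTL hh' ptb grad
theorem alex : S_ALEX := t_ALEX hh' vexp pol ptb ptl grh grad
theorem actz : S_ACTZ := t_ACTZ hh' wsb grad
theorem dense : S_DENSE := t_DENSE hh' grad grh
theorem samev : S_SAMEV := t_SAMEV hh'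
theorem lmz : S_LMZ := t_LMZ hh' ptb zst alex grad
theorem lmc : S_LMC := t_LMC hh' grad grh lmz
theorem zmz : S_ZMZ := t_ZMZ hh' wsb ptb zst alex actz grad
theorem bmz : S_BMZ := t_BMZ hh' zmz
theorem lpz : S_LPZ := t_LPZ hh' wsb lmz actz grad grh dense samev
theorem uni : S_UNI := t_UNI hh' lmz grad grh dense samev
theorem plz : S_PLZ := t_PLZ t_GRE t_HDZ hh'
theorem lcs : S_LCS := t_LCS hh' wsb
theorem lb0 : S_LB0 := t_LB0 hh' lcs plz zmz
theorem flem : S_FLEM := t_FLEM t_HOL hh'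
theorem step : S_STEP := t_STEP hh' t_FIBV t_FIBM t_FIBS t_FIBR flem lcs
theorem lb : S_LB := t_LB lb0 step
theorem bmr : S_BMR := t_BMR hh' lb
theorem lmr : S_LMR := t_LMR hh' alex grad lb
theorem lpr : S_LPR := t_LPR hh' wsb lmr actz grad grh dense samev
theorem unr : S_UNR := t_UNR hh' lmr grad grh dense samev
theorem lev : S_LEV := t_LEV hh' lcs t_CLB (t_LCM hh') (t_LCI hh')
theorem mes : S_MES := t_MES lb t_LAY lev lcs
theorem bcr : S_BCR := t_BCR mes (t_LCE hh')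

end Pool.Agent.T9h58.ZN
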