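import Pool.Agent.H354R3.ZN.Defs

/-!
# Project ZN of helper354, the missing step CORE: from power diagrams to the inequality

The cells of a power diagram with prescribed volumes, whose sites solve `z_i ⬝ ξ_A = c_i`, `i ∈ A`.
The sites of the sets `A` which contain `I` lie on a line in the direction of the cross product of the
`z_i`, `i ∈ I`, so the cells are ordered in this direction.
-/

set_option autoImplicit false

open MeasureTheory
open scoped Matrix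

namespace Pool.Agent.T9h58.ZN

open H354ZN

/-- power diagrams with prescribed volumes -/
def S_OT : Prop := ∀ (n : ℕ) (κ : Type) [Fintype κ] [Nonempty κ] (L : Set (Fin n → ℝ))
  (ξ : κ → Fin n → ℝ) (ν : κ → ℝ), IsCompact L → (∀ k, 0 < ν k) → ∑ k, ν k = volume.real L →
  ∃ b : κ → ℝ, ∀ k, ν k ≤ volume.real {x | x ∈ L ∧ ∀ l, x ⬝ᵥ ξ l + b l ≤ x ⬝ᵥ ξ k + b k}

/-- the widths of the cells in one direction -/
theorem widths (hP1 : S_PERM1) (hLINE : S_LINE) (hCH : S_CHAIN) (m N : ℕ)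
    (z : Fin N → Fin (m + 1) → ℝ) (L : Set (Fin (m + 1) → ℝ)) (hL : IsCompact L)
    (hLne : L.Nonempty) (c : Fin N → ℝ) (ξ : Finset (Fin N) → Fin (m + 1) → ℝ)
    (b : Finset (Fin N) → ℝ)
    (hξ : ∀ A, DD z A ≠ 0 → ∀ i ∈ A, z i ⬝ᵥ ξ A = c i)
    (hinj : ∀ A B, DD z A ≠ 0 → DD z B ≠ 0 → A ≠ B → ξ A ≠ ξ B)
    (Cell : Finset (Fin N) → Set (Fin (m + 1) → ℝ))
    (hCell : ∀ A, ∀ x ∈ Cell A, x ∈ L ∧ ∀ B, DD z B ≠ 0 → x ⬝ᵥ ξ B + b B ≤ x ⬝ᵥ ξ A + b A)
    (hne : ∀ A, DD z A ≠ 0 → (Cell A).Nonempty)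
    (I : Finset (Fin N)) (hI : I ∈ Ps m N) (W : ℝ) (hW : 0 ≤ W)
    (hwid : ∀ x ∈ L, ∀ y ∈ L, X z I ⬝ᵥ x - X z I ⬝ᵥ y ≤ W) :
    ∃ v : Fin N → ℝ, (∀ j, 0 ≤ v j) ∧ (∀ j, j ∉ I → DD z (insert j I) ≠ 0 →
      ∀ x ∈ Cell (insert j I), ∀ y ∈ Cell (insert j I), X z I ⬝ᵥ x - X z I ⬝ᵥ y ≤ v j) ∧
      ∑ j ∈ Iᶜ, v j ≤ W := by
  classical
  have hcard : I.card = m := (Finset.mem_powersetCard.1 hI).2
  let J : Type := {j : Fin N // j ∉ I ∧ DD z (insert j I) ≠ 0}
  by_cases hJ : Nonempty J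
  swap
  · refine ⟨fun _ => 0, fun _ => le_rfl, fun j hj hD => ?_, ?_⟩
    · exact absurd ⟨⟨j, hj, hD⟩⟩ hJ
    · simpa using hW
  obtain ⟨j₀⟩ := hJ
  have hX : X z I ≠ 0 := by
    intro h0
    have h1 := hP1 m N z I j₀.1 hcard j₀.2.1
    rw [h0, zero_dotProduct, abs_zero] at h1
    exact j₀.2.2 h1.symm
  have hτ : ∀ j : J, ∃ τ : ℝ, ξ (insert j.1 I) - ξ (insert j₀.1 I) = τ • X z I := by
    intro j
    refine hLINE m N z I _ hcard hX fun i hi => ?_
    rw [dotProduct_sub, hξ _ j.2.2 i (Finset.mem_insert_of_mem hi),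
      hξ _ j₀.2.2 i (Finset.mem_insert_of_mem hi), sub_self]
  choose τ hτ using hτ
  obtain ⟨xm, hxm, hmin⟩ := hL.exists_isMinOn hLne
    (f := fun x => X z I ⬝ᵥ x) (Continuous.continuousOn (by unfold dotProduct; fun_prop))
  obtain ⟨xM, hxM, hmax⟩ := hL.exists_isMaxOn hLne
    (f := fun x => X z I ⬝ᵥ x) (Continuous.continuousOn (by unfold dotProduct; fun_prop))
  have hord : ∀ A B, DD z A ≠ 0 → DD z B ≠ 0 → ∀ x ∈ Cell A, ∀ y ∈ Cell B,
      y ⬝ᵥ (ξ A - ξ B) ≤ x ⬝ᵥ (ξ A - ξ B) := by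
    intro A B hA hB x hx y hy
    have h1 := (hCell A x hx).2 B hB
    have h2 := (hCell B y hy).2 A hA
    rw [dotProduct_sub, dotProduct_sub]
    linarith
  obtain ⟨u, hu0, hu1, hu2⟩ := hCH J τ (fun j => {r | ∃ x ∈ Cell (insert j.1 I), r = X z I ⬝ᵥ x})
    (X z I ⬝ᵥ xm) (X z I ⬝ᵥ xM) (hmin hxM) (by
    intro j j' hjj
    by_contra hne'
    have h1 : insert j.1 I ≠ insert j'.1 I := by
      intro h
      apply hne'
      apply Subtype.ext
      have h2 : j.1 ∈ insert j'.1 I := by rw [← h]; exact Finset.mem_insert_self _ _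
      rcases Finset.mem_insert.1 h2 with h3 | h3
      · exact h3
      · exact absurd h3 j.2.1
    refine hinj _ _ j.2.2 j'.2.2 h1 ?_
    have h2 := hτ j
    have h3 := hτ j'
    rw [hjj, ← h3] at h2
    exact sub_left_injective h2
   ) (by
    rintro k l hkl _ ⟨x, hx, rfl⟩ _ ⟨y, hy, rfl⟩
    have h1 := hord _ _ k.2.2 l.2.2 x hx y hy
    have h2 : ξ (insert k.1 I) - ξ (insert l.1 I) = (τ k - τ l) • X z I := by
      rw [sub_smul, ← hτ k, ← hτ l]
      abel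
    rw [h2, dotProduct_smul, dotProduct_smul, smul_eq_mul, smul_eq_mul] at h1
    have h3 : 0 < τ k - τ l := sub_pos.2 hkl
    have h4 := le_of_mul_le_mul_left h1 h3
    rwa [dotProduct_comm, dotProduct_comm x] at h4
   ) (by
    intro k
    obtain ⟨x, hx⟩ := hne _ k.2.2
    exact ⟨_, x, hx, rfl⟩
   ) (by
    rintro k _ ⟨x, hx, rfl⟩
    exact ⟨hmin (hCell _ x hx).1, hmax (hCell _ x hx).1⟩)
  refine ⟨fun j => if h : j ∉ I ∧ DD z (insert j I) ≠ 0 then u ⟨j, h⟩ else 0, ?_, ?_, ?_⟩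
  · intro j
    dsimp only
    split_ifs with h
    · exact hu0 _
    · exact le_rfl
  · intro j hj hD x hx y hy
    dsimp only
    rw [dif_pos ⟨hj, hD⟩]
    exact hu1 ⟨j, hj, hD⟩ _ ⟨x, hx, rfl⟩ _ ⟨y, hy, rfl⟩
  · have h1 : ∑ j ∈ Iᶜ, (if h : j ∉ I ∧ DD z (insert j I) ≠ 0 then u ⟨j, h⟩ else 0) =
        ∑ j : J, u j := by
      have h2 : ∑ j : J, u j =
          ∑ j ∈ Finset.univ.filter (fun j : Fin N => j ∉ I ∧ DD z (insert j I) ≠ 0),
            (if h : j ∉ I ∧ DD z (insert j I) ≠ 0 then u ⟨j, h⟩ else 0) := by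
        rw [Finset.sum_subtype (p := fun j : Fin N => j ∉ I ∧ DD z (insert j I) ≠ 0)
          (Finset.univ.filter (fun j : Fin N => j ∉ I ∧ DD z (insert j I) ≠ 0)) (by simp)]
        refine Finset.sum_congr rfl fun j _ => ?_
        rw [dif_pos j.2]
      rw [h2]
      symm
      refine Finset.sum_subset (fun j hj => ?_) fun j _ hj => ?_
      · exact Finset.mem_compl.2 (Finset.mem_filter.1 hj).2.1
      · rw [dif_neg]
        intro h
        exact hj (Finset.mem_filter.2 ⟨Finset.mem_univ _, h⟩)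
    rw [h1]
    exact hu2.trans (hwid xM hxM xm hxm)

theorem core (hOT : S_OT) (hP1 : S_PERM1) (hCOF : S_COF) (hSITE : S_SITE) (hLINE : S_LINE)
    (hGEN : S_GEN) (hSWAP : S_SWAP) (hCH : S_CHAIN) (hPARA : S_PARA) : S_CORE := by
  classical
  intro m N z L s w ν hL hDt hs hw hwid hν hsum
  obtain ⟨c, hc⟩ := hGEN m N z
  have hmem : ∀ A, DD z A ≠ 0 → A ∈ Ps (m + 1) N := by
    intro A hA
    refine Finset.mem_powersetCard.2 ⟨Finset.subset_univ _, ?_⟩
    by_contra h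
    exact hA (by rw [DD, dif_neg h])
  have hex : ∀ A, ∃ ξ : Fin (m + 1) → ℝ, DD z A ≠ 0 → ∀ i ∈ A, z i ⬝ᵥ ξ = c i := by
    intro A
    by_cases h : DD z A = 0
    · exact ⟨0, fun h' => absurd h h'⟩
    · obtain ⟨ξ, hξ⟩ := hSITE m N z A c h
      exact ⟨ξ, fun _ => hξ⟩
  choose ξ hξ using hex
  let κ : Type := {A : Finset (Fin N) // DD z A ≠ 0}
  have : Nonempty κ := by
    by_contra hemp
    have h0 : Dt z = 0 := by
      refine Finset.sum_eq_zero fun A _ => ?_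
      by_contra h
      exact hemp ⟨⟨A, h⟩⟩
    rw [h0] at hDt
    exact lt_irrefl _ hDt
  have hνsum : ∑ k : κ, ν k.1 = volume.real L := by
    rw [← hsum]
    have h2 : ∑ k : κ, ν k.1 = ∑ A ∈ Finset.univ.filter (fun A : Finset (Fin N) => DD z A ≠ 0),
        ν A := by
      rw [Finset.sum_subtype (p := fun A : Finset (Fin N) => DD z A ≠ 0)
        (Finset.univ.filter (fun A : Finset (Fin N) => DD z A ≠ 0)) (by simp)]
    rw [h2]
    have h3 : ∑ A ∈ Ps (m + 1) N, (if DD z A = 0 then 0 else ν A) =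
        ∑ A ∈ (Ps (m + 1) N).filter (fun A => DD z A ≠ 0), ν A := by
      rw [Finset.sum_filter]
      refine Finset.sum_congr rfl fun A _ => ?_
      by_cases h : DD z A = 0
      · rw [if_pos h, if_neg (not_not.2 h)]
      · rw [if_neg h, if_pos h]
    rw [h3]
    refine Finset.sum_congr ?_ fun _ _ => rfl
    ext A
    simp only [Finset.mem_filter, Finset.mem_univ, true_and]
    exact ⟨fun h => ⟨hmem A h, h⟩, fun h => h.2⟩
  obtain ⟨b, hb⟩ := hOT (m + 1) κ L (fun k => ξ k.1) (fun k => ν k.1) hL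
    (fun k => hν k.1 (hmem _ k.2) k.2) hνsum
  let b' : Finset (Fin N) → ℝ := fun A => if h : DD z A ≠ 0 then b ⟨A, h⟩ else 0
  have hb' : ∀ A (h : DD z A ≠ 0), b' A = b ⟨A, h⟩ := fun A h => dif_pos h
  let Cell : Finset (Fin N) → Set (Fin (m + 1) → ℝ) := fun A =>
    {x | x ∈ L ∧ ∀ B, DD z B ≠ 0 → x ⬝ᵥ ξ B + b' B ≤ x ⬝ᵥ ξ A + b' A}
  have hCellv : ∀ A, DD z A ≠ 0 → ν A ≤ volume.real (Cell A) := by
    intro A hA
    have h1 := hb ⟨A, hA⟩
    have h2 : {x | x ∈ L ∧ ∀ l : κ, x ⬝ᵥ ξ l.1 + b l ≤ x ⬝ᵥ ξ A + b ⟨A, hA⟩} = Cell A := by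
      ext x
      constructor
      · rintro ⟨hx, h⟩
        refine ⟨hx, fun B hB => ?_⟩
        rw [hb' B hB, hb' A hA]
        exact h ⟨B, hB⟩
      · rintro ⟨hx, h⟩
        refine ⟨hx, fun l => ?_⟩
        have h3 := h l.1 l.2
        rw [hb' l.1 l.2, hb' A hA] at h3
        exact h3
    rw [← h2]
    exact h1
  have hne : ∀ A, DD z A ≠ 0 → (Cell A).Nonempty := by
    intro A hA
    rw [Set.nonempty_iff_ne_empty]
    intro h
    have h1 := hCellv A hA
    rw [h, measureReal_empty] at h1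
    exact absurd (hν A (hmem A hA) hA) (not_lt.2 h1)
  have hLne : L.Nonempty := by
    obtain ⟨k⟩ := this
    obtain ⟨x, hx⟩ := hne k.1 k.2
    exact ⟨x, hx.1⟩
  have hinj : ∀ A B, DD z A ≠ 0 → DD z B ≠ 0 → A ≠ B → ξ A ≠ ξ B := by
    intro A B hA hB hAB h
    refine hc A B hA hB hAB (ξ A) (hξ A hA) ?_
    rw [h]
    exact hξ B hB
  have hwd : ∀ I, I ∈ Ps m N → ∃ v : Fin N → ℝ, (∀ j, 0 ≤ v j) ∧
      (∀ j, j ∉ I → DD z (insert j I) ≠ 0 → ∀ x ∈ Cell (insert j I), ∀ y ∈ Cell (insert j I),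
        X z I ⬝ᵥ x - X z I ⬝ᵥ y ≤ v j) ∧ ∑ j ∈ Iᶜ, v j ≤ w I := fun I hI =>
    widths hP1 hLINE hCH m N z L hL hLne c ξ b' hξ hinj Cell (fun A x hx => hx) hne I hI (w I)
      (hw I hI) (hwid I hI)
  choose! v hv0 hv1 hv2 using hwd
  have her : ∀ A ∈ Ps (m + 1) N, ∀ j ∈ A, A.erase j ∈ Ps m N := by
    intro A hA j hj
    refine Finset.mem_powersetCard.2 ⟨Finset.subset_univ _, ?_⟩
    rw [Finset.card_erase_of_mem hj, (Finset.mem_powersetCard.1 hA).2]
    rfl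
  -- the volume of a cell
  have hvol : ∀ A ∈ Ps (m + 1) N, DD z A ≠ 0 →
      DD z A ^ m * ν A ≤ ∏ j ∈ A, v (A.erase j) j := by
    intro A hA hD
    have hc1 : A.card = m + 1 := (Finset.mem_powersetCard.1 hA).2
    have hmemA : ∀ i, A.orderEmbOfFin hc1 i ∈ A := fun i => Finset.orderEmbOfFin_mem _ _ _
    have h1 := hPARA (m + 1) (fun i => X z (A.erase (A.orderEmbOfFin hc1 i))) (Cell A)
      (fun i => v (A.erase (A.orderEmbOfFin hc1 i)) (A.orderEmbOfFin hc1 i))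
      (fun i => hv0 _ (her A hA _ (hmemA i)) _) (fun i x hx y hy => by
        have h2 := hv1 _ (her A hA _ (hmemA i)) (A.orderEmbOfFin hc1 i)
          (Finset.notMem_erase _ _)
        rw [Finset.insert_erase (hmemA i)] at h2
        exact h2 hD x hx y hy)
    rw [hCOF m N z A hc1 hD] at h1
    have h3 : ∏ i, v (A.erase (A.orderEmbOfFin hc1 i)) (A.orderEmbOfFin hc1 i) =
        ∏ j ∈ A, v (A.erase j) j := by
      rw [← Finset.prod_coe_sort A (fun j => v (A.erase j) j),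
        ← (A.orderIsoOfFin hc1).toEquiv.prod_comp (fun j : A => v (A.erase j.1) j.1)]
      rfl
    rw [h3] at h1
    refine le_trans ?_ h1
    have h4 : 0 ≤ DD z A := by
      rw [DD, dif_pos hc1]; exact abs_nonneg _
    exact mul_le_mul_of_nonneg_left (hCellv A hD) (pow_nonneg h4 m)
  have hterm : ∀ A ∈ Ps (m + 1) N, ((m : ℝ) + 1) *
      (if DD z A = 0 then 0 else
        ((∏ j ∈ A, s (A.erase j)) * (DD z A ^ m * ν A)) ^ (1 / ((m : ℝ) + 1))) ≤
      ∑ j ∈ A, s (A.erase j) * v (A.erase j) j := by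
    intro A hA
    have hnn : ∀ j ∈ A, 0 ≤ s (A.erase j) * v (A.erase j) j := fun j hj =>
      mul_nonneg (hs _ (her A hA j hj)) (hv0 _ (her A hA j hj) j)
    by_cases hD : DD z A = 0
    · rw [if_pos hD, mul_zero]
      exact Finset.sum_nonneg hnn
    · rw [if_neg hD]
      have hc1 : A.card = m + 1 := (Finset.mem_powersetCard.1 hA).2
      have hm : (0 : ℝ) < (m : ℝ) + 1 := by positivity
      have hDn : 0 ≤ DD z A := by
        rw [DD, dif_pos hc1]; exact abs_nonneg _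
      have h1 : (∏ j ∈ A, s (A.erase j)) * (DD z A ^ m * ν A) ≤
          ∏ j ∈ A, (s (A.erase j) * v (A.erase j) j) := by
        rw [Finset.prod_mul_distrib]
        exact mul_le_mul_of_nonneg_left (hvol A hA hD)
          (Finset.prod_nonneg fun j hj => hs _ (her A hA j hj))
      have h0 : 0 ≤ (∏ j ∈ A, s (A.erase j)) * (DD z A ^ m * ν A) :=
        mul_nonneg (Finset.prod_nonneg fun j hj => hs _ (her A hA j hj))
          (mul_nonneg (pow_nonneg hDn m) (hν A hA hD).le)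
      have h2 := Real.rpow_le_rpow h0 h1 (show (0 : ℝ) ≤ 1 / ((m : ℝ) + 1) by positivity)
      have h3 := Real.geom_mean_le_arith_mean_weighted A (fun _ => 1 / ((m : ℝ) + 1))
        (fun j => s (A.erase j) * v (A.erase j) j) (fun _ _ => by positivity) (by
          rw [Finset.sum_const, hc1, nsmul_eq_mul]
          push_cast
          field_simp) hnn
      rw [Real.finsetProd_rpow A _ hnn] at h3
      have h4 : ∑ j ∈ A, 1 / ((m : ℝ) + 1) * (s (A.erase j) * v (A.erase j) j) =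
          (∑ j ∈ A, s (A.erase j) * v (A.erase j) j) / ((m : ℝ) + 1) := by
        rw [← Finset.mul_sum]; ring
      rw [h4] at h3
      have h5 := h2.trans h3
      rw [le_div_iff₀ hm] at h5
      linarith
  calc _ ≤ ∑ A ∈ Ps (m + 1) N, ∑ j ∈ A, s (A.erase j) * v (A.erase j) j :=
        Finset.sum_le_sum hterm
    _ = ∑ I ∈ Ps m N, ∑ j ∈ Iᶜ, s I * v I j := (hSWAP m N fun I j => s I * v I j).symm
    _ ≤ ∑ I ∈ Ps m N, s I * w I := by
        refine Finset.sum_le_sum fun I hI => ?_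
        rw [← Finset.mul_sum]
        exact mul_le_mul_of_nonneg_left (hv2 I hI) (hs I hI)

end Pool.Agent.T9h58.ZN
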