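import Pool.Agent.H354R3.ZN.Defs5

/-!
# Project ZN, two more pieces: linear images
-/

set_option autoImplicit false

open MeasureTheory Filter
open scoped Matrix Pointwise Topology ENNReal

namespace Pool.Agent.T9h58.ZN

open H354ZN

/-- (LIN) the logarithmic combination commutes with linear maps: `h_{TK} u = h_K (T* u)`; all `u ≠ 0` are
allowed in `LC` (`Wu`), so no normalisation is needed. `SB (T '' K)`: a linear equivalence of `ℝ ^ n` is a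
homeomorphism. -/
def S_LIN : Prop := ∀ (n : ℕ)
  (T : EuclideanSpace ℝ (Fin n) ≃ₗ[ℝ] EuclideanSpace ℝ (Fin n))
  (K L : Set (EuclideanSpace ℝ (Fin n))) (t : ℝ), SB K → SB L → 0 ≤ t → t ≤ 1 →
  SB (T '' K) ∧ LC (T '' K) (T '' L) t = T '' (LC K L t)

/-- (MEST) `S_MES` for bodies and densities invariant under the linear reflections `T⁻¹ σ_j T`, `j ≥ 2`:
apply `S_MES` to `f ∘ T⁻¹`, `T '' K`, `T '' L`; the factor `|det T|` cancels
(`Measure.map_linearMap_addHaar_eq_smul_addHaar`). -/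
def S_MEST : Prop := ∀ (n : ℕ)
  (T : EuclideanSpace ℝ (Fin n) ≃ₗ[ℝ] EuclideanSpace ℝ (Fin n))
  (f : EuclideanSpace ℝ (Fin n) → ℝ)
  (K L : Set (EuclideanSpace ℝ (Fin n))) (t : ℝ), 2 ≤ n → Measurable f → (∀ x, 0 ≤ f x) →
  (∀ x, f (-x) = f x) →
  (∀ j : Fin n, 2 ≤ (j : ℕ) → ∀ x, f (T.symm (flipE j (T x))) = f x) →
  (∀ (x y : EuclideanSpace ℝ (Fin n)) (s : ℝ), 0 < s → s < 1 →
    f x ^ (1 - s) * f y ^ s ≤ f ((1 - s) • x + s • y)) →
  SB K → SB L →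
  (∀ j : Fin n, 2 ≤ (j : ℕ) → ∀ x ∈ K, T.symm (flipE j (T x)) ∈ K) →
  (∀ j : Fin n, 2 ≤ (j : ℕ) → ∀ x ∈ L, T.symm (flipE j (T x)) ∈ L) → 0 < t → t < 1 →
  (∫⁻ x in K, ENNReal.ofReal (f x)) ^ (1 - t) * (∫⁻ x in L, ENNReal.ofReal (f x)) ^ t ≤
    ∫⁻ x in LC K L t, ENNReal.ofReal (f x)

end Pool.Agent.T9h58.ZN
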